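import Pool.Agent.Helper9.PF.Chain

/-!
# MP_175197_nt, project BM: sets of integers such that every prime divides at most `K` of them

`FR` (all members `> y`), `fR` (members whose prime factors are all `> y`), `gR` (the other members `> y`).
-/

set_option autoImplicit false

namespace Pool.Agent.Helper51.BM

open Finset
open Pool.Agent.Helper9.PF

/-- every prime divides at most `K` members of `A` -/
def Mult (A : Set ℕ) (K : ℕ) : Prop :=
  ∀ p : ℕ, p.Prime → ∀ S : Finset ℕ, (∀ n ∈ S, n ∈ A ∧ p ∣ n) → S.card ≤ K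

open Classical in
/-- the sum of `ε n` over the members `n > y` of `A` dividing `m` -/
noncomputable def FR (A : Set ℕ) (ε : ℕ → ℤ) (y m : ℕ) : ℤ :=
  ∑ n ∈ m.divisors with n ∈ A ∧ y < n, ε n

open Classical in
/-- the same for the members without prime factor `≤ y` -/
noncomputable def fR (A : Set ℕ) (ε : ℕ → ℤ) (y m : ℕ) : ℤ :=
  ∑ n ∈ m.divisors with n ∈ A ∧ y < n.minFac, ε n

open Classical in
/-- the same for the members `> y` with a prime factor `≤ y` -/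
noncomputable def gR (A : Set ℕ) (ε : ℕ → ℤ) (y m : ℕ) : ℤ :=
  ∑ n ∈ m.divisors with n ∈ A ∧ y < n ∧ n.minFac ≤ y, ε n

/-- the coefficients -/
noncomputable def aR (A : Set ℕ) (ε θ : ℕ → ℤ) (y m : ℕ) : ℤ := θ m * FR A ε y m

theorem FR_eq (A : Set ℕ) (ε : ℕ → ℤ) (y m : ℕ) : FR A ε y m = fR A ε y m + gR A ε y m := by
  classical
  unfold FR fR gR
  rw [← sum_union]
  · congr 1
    ext n
    simp only [mem_filter, mem_union, Nat.mem_divisors]
    constructor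
    · rintro ⟨h1, h2, h3⟩
      by_cases h : y < n.minFac
      · exact Or.inl ⟨h1, h2, h⟩
      · exact Or.inr ⟨h1, h2, h3, not_lt.1 h⟩
    · rintro (⟨h1, h2, h3⟩ | ⟨h1, h2, h3, -⟩)
      · have hn : 0 < n := Nat.pos_of_ne_zero fun h0 => h1.2 (by
          rw [h0] at h1
          exact Nat.eq_zero_of_zero_dvd h1.1)
        exact ⟨h1, h2, lt_of_lt_of_le h3 (Nat.minFac_le hn)⟩
      · exact ⟨h1, h2, h3⟩
  · rw [disjoint_left]
    intro n hn hn'
    rw [mem_filter] at hn hn'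
    omega

/-- a number whose prime factors are `> y` divides `d * M` (`d` without prime factor `> y`) iff it divides `M` -/
theorem dvd_mul_iff {y n d M : ℕ} (hd : ∀ p, p.Prime → p ∣ d → p ≤ y) (hn : y < n.minFac) :
    n ∣ d * M ↔ n ∣ M := by
  have hco : Nat.Coprime n d := by
    rw [Nat.coprime_iff_gcd_eq_one]
    by_contra h
    obtain ⟨p, hp, hpd⟩ := Nat.exists_prime_and_dvd h
    have h1 := hd p hp (hpd.trans (Nat.gcd_dvd_right _ _))
    have h2 := Nat.minFac_le_of_dvd hp.two_le (hpd.trans (Nat.gcd_dvd_left _ _))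
    omega
  exact hco.dvd_mul_left

theorem fR_mul (A : Set ℕ) (ε : ℕ → ℤ) (y : ℕ) {d M : ℕ} (hd : ∀ p, p.Prime → p ∣ d → p ≤ y)
    (hd0 : d ≠ 0) (hM : M ≠ 0) : fR A ε y (d * M) = fR A ε y M := by
  classical
  unfold fR
  congr 1
  ext n
  simp only [mem_filter, Nat.mem_divisors]
  constructor
  · rintro ⟨⟨h1, -⟩, h2, h3⟩
    exact ⟨⟨(dvd_mul_iff hd h3).1 h1, hM⟩, h2, h3⟩
  · rintro ⟨⟨h1, -⟩, h2, h3⟩
    exact ⟨⟨(dvd_mul_iff hd h3).2 h1, mul_ne_zero hd0 hM⟩, h2, h3⟩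

open Classical in
/-- the number of the members of `A`, `≠ 1`, dividing `m` -/
theorem card_le {A : Set ℕ} {K : ℕ} (hA : Mult A K) (m : ℕ) (S : Finset ℕ)
    (hS : ∀ n ∈ S, n ∈ A ∧ n ∣ m ∧ 1 < n) (hm : m ≠ 0) : S.card ≤ K * Nat.log 2 m := by
  have h1 : S ⊆ m.primeFactors.biUnion fun p => S.filter fun n => p ∣ n := by
    intro n hn
    obtain ⟨h2, h3, h4⟩ := hS n hn
    rw [mem_biUnion]
    have h5 := Nat.minFac_prime (by omega : n ≠ 1)
    exact ⟨n.minFac, Nat.mem_primeFactors.2 ⟨h5, (Nat.minFac_dvd n).trans h3, hm⟩,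
      mem_filter.2 ⟨hn, Nat.minFac_dvd n⟩⟩
  have h2 : S.card ≤ ∑ p ∈ m.primeFactors, K := by
    refine (card_le_card h1).trans (card_biUnion_le.trans (sum_le_sum fun p hp => ?_))
    refine hA p (Nat.prime_of_mem_primeFactors hp) _ fun n hn => ?_
    rw [mem_filter] at hn
    exact ⟨(hS n hn.1).1, hn.2⟩
  rw [sum_const, smul_eq_mul, mul_comm] at h2
  refine h2.trans (Nat.mul_le_mul_left K ?_)
  refine Nat.le_log_of_pow_le (by norm_num) ?_
  calc 2 ^ m.primeFactors.card = ∏ p ∈ m.primeFactors, 2 := by rw [prod_const]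
    _ ≤ ∏ p ∈ m.primeFactors, p := prod_le_prod (fun _ _ => by norm_num)
        (fun p hp => (Nat.prime_of_mem_primeFactors hp).two_le)
    _ ≤ m := Nat.le_of_dvd (Nat.pos_of_ne_zero hm) (Nat.prod_primeFactors_dvd m)

theorem abs_FR_le {A : Set ℕ} {K : ℕ} (hA : Mult A K) (ε : ℕ → ℤ) (hε : ∀ p, |ε p| ≤ 1) {y : ℕ}
    (hy : 1 ≤ y) (m : ℕ) : |FR A ε y m| ≤ ((K * Nat.log 2 m : ℕ) : ℤ) := by
  classical
  unfold FR
  refine (abs_sum_le_sum_abs _ _).trans ?_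
  refine (sum_le_sum (fun p _ => hε p)).trans ?_
  rw [sum_const, nsmul_eq_mul, mul_one]
  norm_cast
  rcases Nat.eq_zero_or_pos m with rfl | hm
  · simp
  · refine card_le hA m _ (fun n hn => ?_) hm.ne'
    rw [mem_filter, Nat.mem_divisors] at hn
    exact ⟨hn.2.1, hn.1.1, by omega⟩

theorem abs_aR_le {A : Set ℕ} {K : ℕ} (hA : Mult A K) (ε θ : ℕ → ℤ) (hε : ∀ p, |ε p| ≤ 1)
    (hθ : ∀ m, |θ m| ≤ 1) {y : ℕ} (hy : 1 ≤ y) (m : ℕ) :
    |aR A ε θ y m| ≤ ((K * Nat.log 2 m : ℕ) : ℤ) := by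
  unfold aR
  rw [abs_mul]
  calc |θ m| * |FR A ε y m| ≤ 1 * |FR A ε y m| :=
        mul_le_mul_of_nonneg_right (hθ m) (abs_nonneg _)
    _ = |FR A ε y m| := one_mul _
    _ ≤ _ := abs_FR_le hA ε hε hy m

/-- the crude bound for `bet` -/
theorem bet_crude {lam : ℝ} (hlam : 3 / 2 ≤ lam) {A : Set ℕ} {K : ℕ} (hA : Mult A K)
    {ε θ : ℕ → ℤ} (hε : ∀ p, |ε p| ≤ 1) (hθ : ∀ m, |θ m| ≤ 1) {y : ℕ} (hy : 1 ≤ y)
    {M X H : ℕ} (hM : 1 ≤ M) (hH : (Nat.log 2 M : ℝ) ≤ lam ^ H) (hX : M + H ≤ X) :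
    bet lam (aR A ε θ y) M ≤ K * (5 * (Nat.log 2 X : ℝ) + 20) := by
  have hlam0 : (0 : ℝ) < lam := by linarith
  have hr0 : 0 ≤ lam⁻¹ := by positivity
  obtain ⟨b, hb⟩ : ∃ b : ℕ → ℤ, ∀ t, b t = (Nat.log 2 t : ℤ) := ⟨_, fun _ => rfl⟩
  have h1 : bet lam b M ≤ 5 * (Nat.log 2 X : ℝ) + 20 := by
    refine bet_le lam hlam b (fun t => ?_) M H (Nat.log 2 X) hM hH fun t _ ht => ?_
    · rw [hb, abs_of_nonneg (Int.natCast_nonneg _)]
    · rw [hb, abs_of_nonneg (Int.natCast_nonneg _)]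
      exact_mod_cast Nat.log_mono_right (by omega)
  have h2 : ∀ t, |(aR A ε θ y t : ℝ)| ≤ K * |(b t : ℝ)| := by
    intro t
    have h3 := abs_aR_le hA ε θ hε hθ hy t
    have h4 : ((|aR A ε θ y t| : ℤ) : ℝ) ≤ (((K * Nat.log 2 t : ℕ) : ℤ) : ℝ) := by exact_mod_cast h3
    rw [Int.cast_abs] at h4
    rw [hb]
    push_cast at h4 ⊢
    rw [abs_of_nonneg (by positivity : (0:ℝ) ≤ (Nat.log 2 t : ℝ))]
    exact h4
  -- summability of the majorant
  have hsb : Summable (fun h : ℕ => |(b (M + 1 + h) : ℝ)| * lam⁻¹ ^ (h + 1)) := by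
    have h3 : ‖lam⁻¹‖ < 1 := by
      rw [Real.norm_eq_abs, abs_of_nonneg hr0]
      rw [inv_lt_one₀ hlam0]
      linarith
    have h4 := (summable_pow_mul_geometric_of_norm_lt_one (R := ℝ) 1 h3)
    have h5 : Summable (fun n : ℕ => ((n + (M + 1) : ℕ) : ℝ) * lam⁻¹ ^ n) := by
      have h6 := h4.add ((summable_geometric_of_norm_lt_one h3).mul_left ((M : ℝ) + 1))
      refine h6.congr fun n => ?_
      push_cast
      ring
    refine Summable.of_nonneg_of_le (fun h => by positivity) (fun h => ?_) (h5.mul_left lam⁻¹)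
    rw [hb, pow_succ]
    have h7 : |((Nat.log 2 (M + 1 + h) : ℤ) : ℝ)| ≤ ((h + (M + 1) : ℕ) : ℝ) := by
      rw [abs_of_nonneg (by positivity)]
      have := Nat.log_le_self 2 (M + 1 + h)
      have h8 : Nat.log 2 (M + 1 + h) ≤ h + (M + 1) := by omega
      exact_mod_cast h8
    calc |((Nat.log 2 (M + 1 + h) : ℤ) : ℝ)| * (lam⁻¹ ^ h * lam⁻¹)
        ≤ ((h + (M + 1) : ℕ) : ℝ) * (lam⁻¹ ^ h * lam⁻¹) :=
          mul_le_mul_of_nonneg_right h7 (by positivity)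
      _ = lam⁻¹ * (((h + (M + 1) : ℕ) : ℝ) * lam⁻¹ ^ h) := by ring
  have h3 : bet lam (aR A ε θ y) M ≤ K * bet lam b M := by
    unfold bet
    rw [mul_add]
    refine add_le_add ?_ ?_
    · rw [← tsum_mul_left]
      have h4 : ∀ h : ℕ, |(aR A ε θ y (M + 1 + h) : ℝ)| * lam⁻¹ ^ (h + 1) ≤
          (K : ℝ) * (|(b (M + 1 + h) : ℝ)| * lam⁻¹ ^ (h + 1)) := by
        intro h
        rw [← mul_assoc]
        exact mul_le_mul_of_nonneg_right (h2 _) (by positivity)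
      refine Summable.tsum_le_tsum h4 ?_ (hsb.mul_left _)
      exact Summable.of_nonneg_of_le (fun h => by positivity) h4 (hsb.mul_left _)
    · rw [mul_sum]
      refine sum_le_sum fun j _ => ?_
      rw [← mul_assoc]
      exact mul_le_mul_of_nonneg_right (h2 _) (by positivity)
  exact h3.trans (mul_le_mul_of_nonneg_left h1 (by positivity))

end Pool.Agent.Helper51.BM
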