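import Pool.Agent.Helper51.BM.Basic

/-!
# MP_175197_nt, project BM: the codes for the members with a small prime factor
-/

set_option autoImplicit false

namespace Pool.Agent.Helper51.BM

open Finset
open Pool.Agent.Helper9.PF

/-- the first place `i ≤ V` with `m ∣ N + i` (`V + 1` if there is none) -/
noncomputable def cd (V m N : ℕ) : ℕ := sInf {i | (i ≤ V ∧ m ∣ N + i) ∨ i = V + 1}

theorem cd_mem (V m N : ℕ) : (cd V m N ≤ V ∧ m ∣ N + cd V m N) ∨ cd V m N = V + 1 := by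
  have h : cd V m N ∈ {i | (i ≤ V ∧ m ∣ N + i) ∨ i = V + 1} :=
    Nat.sInf_mem ⟨V + 1, Or.inr rfl⟩
  exact h

theorem cd_le (V m N : ℕ) : cd V m N ≤ V + 1 := by
  rcases cd_mem V m N with h | h <;> omega

theorem cd_min {V m N i : ℕ} (hi : i ≤ V) (h : m ∣ N + i) : cd V m N ≤ i :=
  Nat.sInf_le (Or.inl ⟨hi, h⟩)

private theorem cd_imp {V m N N' i : ℕ} (h : cd V m N = cd V m N') (hi : i ≤ V) (hm : m ∣ N + i) :
    m ∣ N' + i := by
  have h1 := cd_min hi hm
  have h2 : m ∣ N + cd V m N := by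
    rcases cd_mem V m N with h3 | h3
    · exact h3.2
    · omega
  have h3 : m ∣ N' + cd V m N := by
    rcases cd_mem V m N' with h4 | h4
    · rw [h]
      exact h4.2
    · omega
  have h4 : m ∣ i - cd V m N := by
    have h5 := Nat.dvd_sub hm h2
    have h6 : N + i - (N + cd V m N) = i - cd V m N := by omega
    rwa [h6] at h5
  have h5 : N' + i = (N' + cd V m N) + (i - cd V m N) := by omega
  rw [h5]
  exact dvd_add h3 h4

theorem cd_iff {V m N N' i : ℕ} (h : cd V m N = cd V m N') (hi : i ≤ V) :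
    m ∣ N + i ↔ m ∣ N' + i :=
  ⟨cd_imp h hi, cd_imp h.symm hi⟩

open Classical in
/-- the members `> y` with a prime factor `≤ y`, up to `X` -/
noncomputable def SC (A : Set ℕ) (y X : ℕ) : Finset ℕ :=
  (Icc 1 X).filter fun c => c ∈ A ∧ y < c ∧ c.minFac ≤ y

theorem card_SC {A : Set ℕ} {K : ℕ} (hA : Mult A K) {y : ℕ} (hy : 1 ≤ y) (X : ℕ) :
    (SC A y X).card ≤ K * y := by
  classical
  have h1 : SC A y X ⊆ ((Icc 1 y).filter Nat.Prime).biUnion fun p =>
      (SC A y X).filter fun n => p ∣ n := by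
    intro n hn
    have hn' := hn
    unfold SC at hn
    rw [mem_filter, mem_Icc] at hn
    obtain ⟨h2, h3, h4, h5⟩ := hn
    rw [mem_biUnion]
    have h6 := Nat.minFac_prime (by omega : n ≠ 1)
    exact ⟨n.minFac, mem_filter.2 ⟨mem_Icc.2 ⟨h6.pos, h5⟩, h6⟩,
      mem_filter.2 ⟨hn', Nat.minFac_dvd n⟩⟩
  refine (card_le_card h1).trans (card_biUnion_le.trans ?_)
  have h2 : ∑ p ∈ (Icc 1 y).filter Nat.Prime, ((SC A y X).filter fun n => p ∣ n).card ≤
      ∑ _p ∈ (Icc 1 y).filter Nat.Prime, K := by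
    refine sum_le_sum fun p hp => ?_
    rw [mem_filter] at hp
    refine hA p hp.2 _ fun n hn => ?_
    rw [mem_filter] at hn
    unfold SC at hn
    rw [mem_filter] at hn
    exact ⟨hn.1.2.1, hn.2⟩
  refine h2.trans ?_
  rw [sum_const, smul_eq_mul, mul_comm]
  refine Nat.mul_le_mul_left K ((card_filter_le _ _).trans ?_)
  rw [Nat.card_Icc]
  omega

theorem gR_eq {A : Set ℕ} (ε : ℕ → ℤ) {y V X N N' d i : ℕ} (hd : 0 < d) (hN : 1 ≤ N) (hN' : 1 ≤ N')
    (hNX : N + V ≤ X) (hNX' : N' + V ≤ X) (hi : i ≤ V) (hdN : d ∣ N + i) (hdN' : d ∣ N' + i)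
    (hc : ∀ c ∈ SC A y X, cd V (d * c) N = cd V (d * c) N') :
    gR A ε y ((N + i) / d) = gR A ε y ((N' + i) / d) := by
  classical
  have hpos : ∀ N, 1 ≤ N → d ∣ N + i → (N + i) / d ≠ 0 := by
    intro N h1 h2
    have := Nat.div_pos (Nat.le_of_dvd (by omega) h2) hd
    omega
  have key : ∀ N N', 1 ≤ N → 1 ≤ N' → N + V ≤ X → d ∣ N + i → d ∣ N' + i →
      (∀ c ∈ SC A y X, cd V (d * c) N = cd V (d * c) N') → ∀ n, n ∣ (N + i) / d → n ∈ A → y < n →
      n.minFac ≤ y → n ∣ (N' + i) / d := by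
    intro N N' h1 h1' h2 h3 h4 h5 n h6 h7 h8 h9
    have h10 := hpos N h1 h3
    have h11 : n ≤ (N + i) / d := Nat.le_of_dvd (Nat.pos_of_ne_zero h10) h6
    have h12 : (N + i) / d ≤ N + i := Nat.div_le_self _ _
    have h13 : n ∈ SC A y X := by
      unfold SC
      rw [mem_filter, mem_Icc]
      exact ⟨⟨by omega, by omega⟩, h7, h8, h9⟩
    have h14 : d * n ∣ N + i := by
      rw [← Nat.dvd_div_iff_mul_dvd h3]
      exact h6
    have h15 := (cd_iff (h5 n h13) hi).1 h14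
    rw [Nat.dvd_div_iff_mul_dvd h4]
    exact h15
  unfold gR
  congr 1
  ext n
  simp only [mem_filter, Nat.mem_divisors]
  constructor
  · rintro ⟨⟨h1, -⟩, h2, h3, h4⟩
    exact ⟨⟨key N N' hN hN' hNX hdN hdN' hc n h1 h2 h3 h4, hpos N' hN' hdN'⟩, h2, h3, h4⟩
  · rintro ⟨⟨h1, -⟩, h2, h3, h4⟩
    exact ⟨⟨key N' N hN' hN hNX' hdN' hdN (fun c hcc => (hc c hcc).symm) n h1 h2 h3 h4,
      hpos N hN hdN⟩, h2, h3, h4⟩

end Pool.Agent.Helper51.BM
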