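import Pool.Agent.Helper9.PF.Params

/-!
# MP_175197_nt, project BM: the parameters which differ from `Helper9/PF`
-/

set_option autoImplicit false

namespace Pool.Agent.Helper51.BM

open Filter
open Pool.Agent.Helper9.PF

/-- the noise -/
def NN (L : ℕ) : ℕ := L * 2 ^ L
/-- number of design primes per place -/
def uB (L : ℕ) : ℕ := (2 * NN L + 1) * 2 ^ L
/-- `B` -/
def BB' (L : ℕ) : ℕ := uB L + NN L
/-- the bound for `bet` -/
def RR (L : ℕ) : ℕ := L * (10 * 2 ^ (2 ^ (L - 1)) + 25)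

private theorem ev5 (k : ℕ) : ∀ᶠ L : ℕ in atTop, k * L ^ 5 ≤ 2 ^ (L - 2) := by
  have h := tendsto_pow_const_div_const_pow_of_one_lt 5 (r := (2 : ℝ)) (by norm_num)
  have h2 : ∀ᶠ n : ℕ in atTop, (n : ℝ) ^ 5 / 2 ^ n < 1 / (4 * ((k : ℝ) + 1)) :=
    h.eventually (gt_mem_nhds (by positivity))
  filter_upwards [h2, eventually_ge_atTop 2] with n hn h2n
  have hp : (0 : ℝ) < 2 ^ n := by positivity
  rw [div_lt_iff₀ hp, one_div, inv_mul_eq_div, lt_div_iff₀ (by positivity)] at hn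
  obtain ⟨m, rfl⟩ := Nat.exists_eq_add_of_le' h2n
  have h3 : m + 2 - 2 = m := by omega
  rw [h3]
  have h4 : (k : ℝ) * (((m + 2 : ℕ) : ℝ)) ^ 5 ≤ 2 ^ m := by
    have h5 : (2 : ℝ) ^ (m + 2) = 4 * 2 ^ m := by ring
    rw [h5] at hn
    have h6 : (0 : ℝ) ≤ (((m + 2 : ℕ) : ℝ)) ^ 5 := by positivity
    nlinarith
  exact_mod_cast h4

private theorem del_le {L : ℕ} (hL : 1 ≤ L) : del L ≤ 2 ^ 33 * L ^ 4 := by
  unfold del eta
  have h1 : 1 ≤ L ^ 2 := Nat.one_le_pow _ _ hL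
  calc 64 * (1 + 8192 * L ^ 2) * (8192 * L ^ 2)
      ≤ 64 * (16384 * L ^ 2) * (8192 * L ^ 2) :=
        Nat.mul_le_mul_right _ (Nat.mul_le_mul_left _ (by omega))
    _ = 2 ^ 33 * L ^ 4 := by ring

private theorem uB_le {L : ℕ} : uB L ≤ 2 ^ (3 * L + 2) := by
  unfold uB NN
  have h1 : L ≤ 2 ^ L := Nat.lt_two_pow_self.le
  have h2 : 1 ≤ 2 ^ L := Nat.one_le_two_pow
  have h3 : 2 ^ (3 * L + 2) = (4 * (2 ^ L * 2 ^ L)) * 2 ^ L := by ring
  rw [h3]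
  refine Nat.mul_le_mul_right _ ?_
  have h4 : L * 2 ^ L ≤ 2 ^ L * 2 ^ L := Nat.mul_le_mul_right _ h1
  have h5 : 1 ≤ 2 ^ L * 2 ^ L := Nat.mul_pos h2 h2
  omega

private theorem WuB_le {L : ℕ} : WW L * uB L ≤ 2 ^ (2 * del L + 3 * L + 4) := by
  unfold WW DD
  calc 4 * (2 ^ del L) ^ 2 * uB L ≤ 4 * (2 ^ del L) ^ 2 * 2 ^ (3 * L + 2) :=
        Nat.mul_le_mul_left _ uB_le
    _ = 2 ^ (2 * del L + 3 * L + 4) := by ring

theorem q5 : ∀ᶠ L : ℕ in atTop, ∀ lam : ℝ, 3 / 2 ≤ lam →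
    4 * (BB' L : ℝ) + 2 * (30 * (L : ℝ)) < lam ^ GG L := by
  filter_upwards [eventually_ge_atTop 3] with L hL lam hlam
  have h1 : ∀ L : ℕ, 3 ≤ L → (76 : ℝ) * L * 4 ^ L < 25 ^ L := by
    intro L hL
    induction L, hL using Nat.le_induction with
    | base => norm_num
    | succ L hL ih =>
      rw [pow_succ, pow_succ]
      have h2 : (0 : ℝ) < 4 ^ L := by positivity
      have h3 : (3 : ℝ) ≤ L := by exact_mod_cast hL
      push_cast
      have h4 : (76 : ℝ) * (L + 1) * (4 ^ L * 4) ≤ 25 * (76 * L * 4 ^ L) := by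
        have h5 : (76 : ℝ) * (L + 1) * 4 ≤ 25 * (76 * L) := by linarith
        calc (76 : ℝ) * (L + 1) * (4 ^ L * 4) = (76 * (L + 1) * 4) * 4 ^ L := by ring
          _ ≤ (25 * (76 * L)) * 4 ^ L := mul_le_mul_of_nonneg_right h5 h2.le
          _ = 25 * (76 * L * 4 ^ L) := by ring
      linarith
  have h3 : (25 : ℝ) ^ L ≤ lam ^ GG L := by
    unfold GG
    rw [pow_mul]
    refine pow_le_pow_left₀ (by norm_num) ?_ L
    refine le_trans ?_ (pow_le_pow_left₀ (by norm_num) hlam 8)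
    norm_num
  have h4 : (BB' L : ℝ) = 2 * L * 4 ^ L + 2 ^ L + L * 2 ^ L := by
    unfold BB' uB NN
    push_cast
    have h5 : (4 : ℝ) ^ L = 2 ^ L * 2 ^ L := by
      rw [← mul_pow]
      norm_num
    rw [h5]
    ring
  have h6 : (2 : ℝ) ^ L ≤ 4 ^ L := pow_le_pow_left₀ (by norm_num) (by norm_num) L
  have h7 : (1 : ℝ) ≤ 4 ^ L := one_le_pow₀ (by norm_num)
  have h8 := h1 L hL
  have h9 : (3 : ℝ) ≤ L := by exact_mod_cast hL
  have h10 : (L : ℝ) * 2 ^ L ≤ L * 4 ^ L := mul_le_mul_of_nonneg_left h6 (by linarith)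
  have h11 : (4 : ℝ) ^ L ≤ L * 4 ^ L := le_mul_of_one_le_left (by linarith) (by linarith)
  have h12 : (L : ℝ) ≤ L * 4 ^ L := le_mul_of_one_le_right (by linarith) h7
  rw [h4]
  nlinarith

theorem q6 : ∀ᶠ L : ℕ in atTop, ∀ lam : ℝ, 3 / 2 ≤ lam →
    (RR L : ℝ) ≤ (30 * (L : ℝ)) * lam ^ (2 ^ L) := by
  filter_upwards [p6, eventually_ge_atTop 1] with L hL hL1 lam hlam
  have h1 := hL lam hlam (YY L ^ 2) le_rfl
  have h2 : Nat.log 2 (YY L ^ 2) = 2 * 2 ^ (2 ^ (L - 1)) := by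
    unfold YY
    rw [← pow_mul, Nat.log_pow (by norm_num), mul_comm]
  rw [h2] at h1
  have h3 : (1 : ℝ) ≤ lam ^ (2 ^ L) := one_le_pow₀ (by linarith)
  have h4 : (0 : ℝ) ≤ L := Nat.cast_nonneg _
  unfold RR
  push_cast at h1 ⊢
  have h5 : (10 : ℝ) * 2 ^ (2 ^ (L - 1)) + 25 ≤ 30 * lam ^ (2 ^ L) := by linarith
  calc (L : ℝ) * (10 * 2 ^ (2 ^ (L - 1)) + 25) ≤ L * (30 * lam ^ (2 ^ L)) :=
        mul_le_mul_of_nonneg_left h5 h4
    _ = (30 * (L : ℝ)) * lam ^ (2 ^ L) := by ring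

theorem RR_ge {L K X : ℕ} (hK : K ≤ L) (hX : X ≤ 2 * YY L ^ 2) :
    (K : ℝ) * (5 * (Nat.log 2 X : ℝ) + 20) ≤ RR L := by
  have h1 : Nat.log 2 X ≤ 2 * 2 ^ (2 ^ (L - 1)) + 1 := by
    refine (Nat.log_mono_right hX).trans ?_
    unfold YY
    rw [← pow_mul, ← pow_succ', Nat.log_pow (by norm_num), mul_comm]
  have h2 : (Nat.log 2 X : ℝ) ≤ 2 * 2 ^ (2 ^ (L - 1)) + 1 := by exact_mod_cast h1
  have h3 : (K : ℝ) ≤ L := by exact_mod_cast hK
  unfold RR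
  push_cast
  have h4 : 5 * (Nat.log 2 X : ℝ) + 20 ≤ 10 * 2 ^ (2 ^ (L - 1)) + 25 := by linarith
  exact mul_le_mul h3 h4 (by positivity) (by positivity)

theorem q7 : ∀ᶠ L : ℕ in atTop, L * (WW L * uB L) ≤ 2 ^ (L ^ 8) := by
  filter_upwards [eventually_ge_atTop 512] with L hL
  have hL1 : 1 ≤ L := by omega
  have hkey : 2 * del L + 4 * L + 4 ≤ L ^ 8 := by
    have h1 := del_le hL1
    have h2 : (512 : ℕ) ^ 4 ≤ L ^ 4 := Nat.pow_le_pow_left hL 4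
    have h3 : L ^ 8 = L ^ 4 * L ^ 4 := by ring
    have h4 : (512 : ℕ) ^ 4 * L ^ 4 ≤ L ^ 4 * L ^ 4 := Nat.mul_le_mul_right _ h2
    have h5 : L ≤ L ^ 4 := Nat.le_self_pow (by norm_num) L
    have h6 : (512 : ℕ) ^ 4 * L ^ 4 = 2 * (2 ^ 33 * L ^ 4) + 51539607552 * L ^ 4 := by ring
    rw [h3]
    omega
  calc L * (WW L * uB L) ≤ 2 ^ L * 2 ^ (2 * del L + 3 * L + 4) :=
        Nat.mul_le_mul Nat.lt_two_pow_self.le WuB_le
    _ = 2 ^ (2 * del L + 4 * L + 4) := by ring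
    _ ≤ 2 ^ (L ^ 8) := Nat.pow_le_pow_right (by norm_num) hkey

private theorem QQ_le (G y : ℕ) : QQ G y ≤ 4 ^ y := by
  refine le_trans ?_ (primorial_le_four_pow y)
  unfold QQ primorial
  refine Finset.prod_le_prod_of_subset_of_one_le' ?_ ?_
  · intro p hp
    rw [Finset.mem_filter, Finset.mem_Ioc] at hp
    rw [Finset.mem_filter, Finset.mem_range]
    exact ⟨by omega, hp.2⟩
  · intro p hp _
    exact (Finset.mem_filter.1 hp).2.one_le

theorem q8 : ∀ᶠ L : ℕ in atTop,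
    16 * (4 * QQ (GG L) (yy L) * ZZ L ^ (2 * (WW L * uB L))) ≤ YY L := by
  filter_upwards [ev5 (2 ^ 35), eventually_ge_atTop 3] with L h5 hL
  have hL4 : 1 ≤ L ^ 4 := Nat.one_le_pow _ _ (by omega)
  -- the exponent
  have hexp : 2 * del L + 3 * L + 7 ≤ 2 ^ (L - 2) := by
    refine le_trans ?_ h5
    have h1 : del L ≤ 2 ^ 33 * L ^ 4 := del_le (by omega)
    have h3 : L ≤ L ^ 4 := Nat.le_self_pow (by norm_num) L
    have h4 : L ^ 4 ≤ L ^ 5 := Nat.pow_le_pow_right (by omega) (by norm_num)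
    calc 2 * del L + 3 * L + 7 ≤ 2 * (2 ^ 33 * L ^ 4) + 3 * L ^ 4 + 7 * L ^ 4 := by omega
      _ ≤ 2 ^ 35 * L ^ 4 := by omega
      _ ≤ 2 ^ 35 * L ^ 5 := Nat.mul_le_mul_left _ h4
  have hpow : 2 * 2 ^ (L - 2) = 2 ^ (L - 1) := by
    rw [← pow_succ']
    congr 1
    omega
  set e1 : ℕ := 2 ^ (L - 2) + (2 * del L + 3 * L + 5) with he1
  have he2 : e1 + 2 ≤ 2 ^ (L - 1) := by omega
  have hW : 2 * (WW L * uB L) ≤ 2 ^ (2 * del L + 3 * L + 5) := by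
    rw [pow_succ' 2 (2 * del L + 3 * L + 4)]
    exact Nat.mul_le_mul_left 2 WuB_le
  have hZ : ZZ L ^ (2 * (WW L * uB L)) ≤ 2 ^ 2 ^ e1 := by
    unfold ZZ
    rw [← pow_mul]
    refine Nat.pow_le_pow_right (by norm_num) ?_
    rw [he1, pow_add]
    exact Nat.mul_le_mul_left _ hW
  have hQ : QQ (GG L) (yy L) ≤ 2 ^ 2 ^ e1 := by
    refine (QQ_le _ _).trans ?_
    have h1 : (4 : ℕ) = 2 ^ 2 := by norm_num
    rw [h1, ← pow_mul]
    refine Nat.pow_le_pow_right (by norm_num) ?_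
    unfold yy
    rw [← pow_succ']
    refine Nat.pow_le_pow_right (by norm_num) ?_
    have h2 : eta L ≤ del L := by
      unfold del
      nlinarith [Nat.zero_le (eta L)]
    omega
  have h6 : (6 : ℕ) ≤ 2 ^ e1 := by
    have h1 : 3 ≤ e1 := by omega
    calc 6 ≤ 2 ^ 3 := by norm_num
      _ ≤ 2 ^ e1 := Nat.pow_le_pow_right (by norm_num) h1
  calc 16 * (4 * QQ (GG L) (yy L) * ZZ L ^ (2 * (WW L * uB L)))
      ≤ 16 * (4 * 2 ^ 2 ^ e1 * 2 ^ 2 ^ e1) :=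
        Nat.mul_le_mul_left _ (Nat.mul_le_mul (Nat.mul_le_mul_left _ hQ) hZ)
    _ = 2 ^ (6 + 2 ^ e1 + 2 ^ e1) := by rw [pow_add, pow_add]; ring
    _ ≤ 2 ^ (2 ^ (e1 + 2)) := by
        refine Nat.pow_le_pow_right (by norm_num) ?_
        have h7 : 2 ^ (e1 + 2) = 4 * 2 ^ e1 := by ring
        rw [h7]
        omega
    _ ≤ YY L := by
        unfold YY
        exact Nat.pow_le_pow_right (by norm_num) (Nat.pow_le_pow_right (by norm_num) he2)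

theorem q10 (K₀ : ℕ) : ∀ᶠ L : ℕ in atTop,
    (2 * BB' L + 1) ^ (WW L / 16) *
      ((2 * (K₀ ^ (yy L ^ 2) * (RR L + 1)) + 1) ^ 2) ^ DD L *
      (VV L + 2) ^ (L * yy L * DD L) < (2 ^ L) ^ (WW L / 4) := by
  filter_upwards [eventually_ge_atTop (K₀ + 10)] with L hL
  obtain ⟨e, he⟩ : ∃ e, e = eta L := ⟨_, rfl⟩
  have heL2 : 8192 * L ≤ e := by
    rw [he, eta]
    nlinarith
  have heL : L ≤ e := by omega
  have he1 : 10 ≤ e := by omega
  have hdel : del L = 64 * (1 + e) * e := by rw [del, ← he]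
  have hdel1 : 64 * e + 64 ≤ del L := by
    rw [hdel]
    nlinarith
  have hdel2 : del L ≤ 128 * (e * e) := by
    rw [hdel]
    nlinarith
  obtain ⟨D', hD'⟩ : ∃ D', D' = 2 ^ (del L - 2) := ⟨_, rfl⟩
  have hDD : DD L = 4 * D' := by
    rw [DD, hD']
    have h1 : del L = 2 + (del L - 2) := by omega
    conv_lhs => rw [h1, pow_add]
    norm_num
  have hD'pos : 0 < D' := by rw [hD']; positivity
  have hW16 : WW L / 16 = 4 * D' ^ 2 := by
    rw [WW, hDD]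
    have h1 : 4 * (4 * D') ^ 2 = 16 * (4 * D' ^ 2) := by ring
    rw [h1]
    exact Nat.mul_div_cancel_left _ (by norm_num)
  have hW4 : WW L / 4 = 16 * D' ^ 2 := by
    rw [WW, hDD]
    have h1 : 4 * (4 * D') ^ 2 = 4 * (16 * D' ^ 2) := by ring
    rw [h1]
    exact Nat.mul_div_cancel_left _ (by norm_num)
  have hyy : yy L ^ 2 = 2 ^ (2 * e) := by
    rw [yy, ← he, ← pow_mul, mul_comm]
  have hyy1 : yy L = 2 ^ e := by rw [yy, ← he]
  obtain ⟨Y, hY⟩ : ∃ Y, Y = yy L ^ 2 := ⟨_, rfl⟩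
  obtain ⟨a, ha⟩ : ∃ a, a = 2 ^ L := ⟨_, rfl⟩
  have haL : L < a := by rw [ha]; exact Nat.lt_two_pow_self
  -- the first base
  have h1 : 2 * BB' L + 1 ≤ 2 ^ (3 * L + 3) := by
    have e1 : 2 ^ (3 * L + 3) = 8 * (a * a * a) := by
      rw [ha]
      ring
    rw [e1, BB', uB, NN, ← ha]
    have e2 : L * a ≤ a * a := Nat.mul_le_mul_right _ haL.le
    have e3 : L * a * a ≤ a * a * a := Nat.mul_le_mul_right _ e2
    have e4 : 2 ≤ a := by omega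
    have e5 : 2 * (a * a) ≤ a * (a * a) := Nat.mul_le_mul_right _ e4
    have e6 : a * 1 ≤ a * a := Nat.mul_le_mul_left _ (by omega)
    have e7 : a * (a * a) = a * a * a := by ring
    have e8 : (2 * (L * a) + 1) * a + L * a = 2 * (L * a * a) + a + L * a := by ring
    rw [e8]
    omega
  -- the second base
  have hK : K₀ ≤ 2 ^ K₀ := Nat.lt_two_pow_self.le
  obtain ⟨N, hN⟩ : ∃ N, N = K₀ * Y + (2 ^ (L - 1) + L + 7) := ⟨_, rfl⟩
  have h2 : 2 * (RR L + 1) + 1 ≤ 2 ^ (2 ^ (L - 1) + L + 7) := by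
    unfold RR
    obtain ⟨b, hb⟩ : ∃ b, b = 2 ^ (2 ^ (L - 1)) := ⟨_, rfl⟩
    have hb1 : 1 ≤ b := by rw [hb]; exact Nat.one_le_two_pow
    have e1 : 2 ^ (2 ^ (L - 1) + L + 7) = 128 * (a * b) := by
      rw [ha, hb]
      ring
    rw [e1, ← hb]
    have e2 : 10 * b + 25 ≤ 35 * b := by omega
    have e3 : L * (10 * b + 25) ≤ a * (35 * b) := Nat.mul_le_mul haL.le e2
    have e4 : 1 ≤ a * b := Nat.mul_pos (by omega) hb1
    have e5 : a * (35 * b) = 35 * (a * b) := by ring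
    omega
  have h3 : 2 * (K₀ ^ (yy L ^ 2) * (RR L + 1)) + 1 ≤ 2 ^ N := by
    rw [← hY, hN, pow_add, pow_mul]
    have h4 : K₀ ^ Y ≤ (2 ^ K₀) ^ Y := Nat.pow_le_pow_left hK Y
    have h5 : 1 ≤ (2 ^ K₀) ^ Y := Nat.one_le_iff_ne_zero.2 (by positivity)
    calc 2 * (K₀ ^ Y * (RR L + 1)) + 1
        ≤ 2 * ((2 ^ K₀) ^ Y * (RR L + 1)) + (2 ^ K₀) ^ Y := by gcongr
      _ = (2 ^ K₀) ^ Y * (2 * (RR L + 1) + 1) := by ring
      _ ≤ (2 ^ K₀) ^ Y * 2 ^ (2 ^ (L - 1) + L + 7) := by gcongr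
  -- the third factor
  have hV : VV L + 2 ≤ 2 ^ (2 * del L + 4) := by
    unfold VV EE WW DD
    have g1 : 2 ^ L + 2 ≤ 2 ^ del L := by
      have g2 : L + 1 ≤ del L := by omega
      have g3 : 2 ^ (L + 1) ≤ 2 ^ del L := Nat.pow_le_pow_right (by norm_num) g2
      rw [pow_succ, ← ha] at g3
      rw [← ha]
      omega
    have g4 : 2 ^ del L * (2 ^ L + 2) ≤ 2 ^ del L * 2 ^ del L := Nat.mul_le_mul_left _ g1
    have g5 : 2 ≤ 2 ^ del L * 2 ^ del L := by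
      have : 2 ≤ 2 ^ del L := by omega
      nlinarith
    have g6 : 2 ^ (2 * del L + 4) = 16 * (2 ^ del L * 2 ^ del L) := by ring
    have g7 : (2 ^ del L) ^ 2 = 2 ^ del L * 2 ^ del L := by ring
    rw [g6, g7]
    omega
  obtain ⟨S, hS⟩ : ∃ S, S = (2 * del L + 4) * (L * yy L) := ⟨_, rfl⟩
  have h4 : (VV L + 2) ^ (L * yy L * DD L) ≤ 2 ^ (S * (4 * D')) := by
    rw [hDD]
    refine (Nat.pow_le_pow_left hV _).trans ?_
    rw [← pow_mul, hS]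
    refine Nat.pow_le_pow_right (by norm_num) (le_of_eq ?_)
    ring
  -- the rest is small
  have h6 : 2 * N + S < D' := by
    have hYe : Y = 2 ^ (2 * e) := by rw [hY, hyy]
    have g1 : 2 ^ (L - 1) + L + 7 ≤ 4 * Y := by
      have g2 : 2 ^ (L - 1) ≤ Y := by
        rw [hYe]
        exact Nat.pow_le_pow_right (by norm_num) (by omega)
      have g3 : L ≤ Y := by
        rw [hYe]
        have : 2 * e < 2 ^ (2 * e) := Nat.lt_two_pow_self
        omega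
      omega
    have g4 : N ≤ (K₀ + 4) * Y := by
      rw [hN]
      nlinarith
    have hlt : e < 2 ^ e := Nat.lt_two_pow_self
    have g5 : K₀ + 4 ≤ 2 ^ e := by omega
    have g6 : 2 * N ≤ 2 ^ (4 * e + 9) := by
      calc 2 * N ≤ 2 * ((K₀ + 4) * Y) := Nat.mul_le_mul_left _ g4
        _ ≤ 2 * (2 ^ e * 2 ^ (2 * e)) := by
            rw [hYe]
            exact Nat.mul_le_mul_left _ (Nat.mul_le_mul_right _ g5)
        _ = 2 ^ (3 * e + 1) := by rw [← pow_add]; ring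
        _ ≤ 2 ^ (4 * e + 9) := Nat.pow_le_pow_right (by norm_num) (by omega)
    have g7 : 2 * del L + 4 ≤ 2 ^ (2 * e + 9) := by
      have g8 : 2 ^ (2 * e + 9) = 512 * (2 ^ e * 2 ^ e) := by ring
      rw [g8]
      have g9 : e * e ≤ 2 ^ e * 2 ^ e := Nat.mul_le_mul hlt.le hlt.le
      have g10 : 1 ≤ e * e := Nat.mul_pos (by omega) (by omega)
      omega
    have g11 : S ≤ 2 ^ (4 * e + 9) := by
      rw [hS, hyy1]
      calc (2 * del L + 4) * (L * 2 ^ e) ≤ 2 ^ (2 * e + 9) * (2 ^ e * 2 ^ e) :=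
            Nat.mul_le_mul g7 (Nat.mul_le_mul_right _ (by omega))
        _ = 2 ^ (4 * e + 9) := by ring
    calc 2 * N + S ≤ 2 ^ (4 * e + 9) + 2 ^ (4 * e + 9) := Nat.add_le_add g6 g11
      _ = 2 ^ (4 * e + 10) := by ring
      _ < D' := by
          rw [hD']
          exact Nat.pow_lt_pow_right (by norm_num) (by omega)
  have h7 : (3 * L + 3) * (4 * D' ^ 2) + N * (2 * (4 * D')) + S * (4 * D') < L * (16 * D' ^ 2) := by
    have h9 : (2 * N + S) * (4 * D') < D' * (4 * D') :=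
      Nat.mul_lt_mul_of_pos_right h6 (by omega)
    have h10 : (3 * L + 3) * (4 * D' ^ 2) + 4 * D' ^ 2 ≤ L * (16 * D' ^ 2) := by
      have e1 : (3 * L + 4) * (4 * D' ^ 2) ≤ (4 * L) * (4 * D' ^ 2) :=
        Nat.mul_le_mul_right _ (by omega)
      calc (3 * L + 3) * (4 * D' ^ 2) + 4 * D' ^ 2 = (3 * L + 4) * (4 * D' ^ 2) := by ring
        _ ≤ (4 * L) * (4 * D' ^ 2) := e1
        _ = L * (16 * D' ^ 2) := by ring
    have h11 : (2 * N + S) * (4 * D') = N * (2 * (4 * D')) + S * (4 * D') := by ring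
    have h12 : D' * (4 * D') = 4 * D' ^ 2 := by ring
    omega
  rw [hW16, hW4, hDD]
  rw [hDD] at h4
  calc (2 * BB' L + 1) ^ (4 * D' ^ 2) *
      ((2 * (K₀ ^ (yy L ^ 2) * (RR L + 1)) + 1) ^ 2) ^ (4 * D') *
      (VV L + 2) ^ (L * yy L * (4 * D'))
      ≤ (2 ^ (3 * L + 3)) ^ (4 * D' ^ 2) * ((2 ^ N) ^ 2) ^ (4 * D') * 2 ^ (S * (4 * D')) :=
        Nat.mul_le_mul (Nat.mul_le_mul (Nat.pow_le_pow_left h1 _)
          (Nat.pow_le_pow_left (Nat.pow_le_pow_left h3 _) _)) h4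
    _ = 2 ^ ((3 * L + 3) * (4 * D' ^ 2) + N * (2 * (4 * D')) + S * (4 * D')) := by
        rw [← pow_mul, ← pow_mul, ← pow_mul, ← pow_add, ← pow_add]
    _ < 2 ^ (L * (16 * D' ^ 2)) := Nat.pow_lt_pow_right (by norm_num) h7
    _ = (2 ^ L) ^ (16 * D' ^ 2) := pow_mul _ _ _

end Pool.Agent.Helper51.BM
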