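import Pool.Agent.Helper51.BM.Count
import Pool.Agent.Helper51.BM.Design
import Pool.Agent.Helper51.BM.Params
import Pool.Agent.Helper9.PF.ExistsA
import Pool.Agent.Helper9.PF.Primes

/-!
# MP_175197_nt, project BM: the core theorem
-/

set_option autoImplicit false

namespace Pool.Agent.Helper51.BM

open Finset Filter
open Pool.Agent.Helper9.PF

private lemma qq_pos (G y : ℕ) : 0 < QQ G y := by
  unfold QQ
  exact Finset.prod_pos fun p hp => ((Finset.mem_filter.1 hp).2).pos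

private lemma qq_prime {G y p : ℕ} (hp : p.Prime) (h : p ∣ QQ G y) : G < p ∧ p ≤ y := by
  unfold QQ at h
  obtain ⟨r, hr, hpr⟩ := (hp.prime.dvd_finsetProd_iff _).1 h
  rw [Finset.mem_filter, Finset.mem_Ioc] at hr
  rw [(Nat.prime_dvd_prime_iff_eq hp hr.2).1 hpr]
  exact hr.1

private lemma qq_odd {G y : ℕ} (hG : 2 ≤ G) : Odd (QQ G y) := by
  rw [← Nat.coprime_two_left]
  unfold QQ
  refine Nat.Coprime.prod_right fun p hp => ?_
  rw [Finset.mem_filter, Finset.mem_Ioc] at hp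
  rw [Nat.coprime_primes Nat.prime_two hp.2]
  omega

private lemma card_I' {θ : ℕ → ℤ} (hθ : Theta θ) (a E : ℕ) (w : ℕ) :
    w ≤ ((Ioc E (E + 4 * w)).filter (fun i => θ (a + i) ≠ 0)).card := by
  induction w with
  | zero => exact Nat.zero_le _
  | succ w ih =>
    obtain ⟨i, hi1, hi2, hi3⟩ : ∃ i, E + 4 * w < i ∧ i ≤ E + 4 * (w + 1) ∧ Odd (a + i) := by
      rcases Nat.even_or_odd (a + (E + 4 * w + 1)) with h | h
      · refine ⟨E + 4 * w + 2, by omega, by omega, ?_⟩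
        have : a + (E + 4 * w + 2) = (a + (E + 4 * w + 1)) + 1 := by ring
        rw [this]
        exact h.add_one
      · exact ⟨E + 4 * w + 1, by omega, by omega, h⟩
    have hsub : insert i ((Ioc E (E + 4 * w)).filter (fun i => θ (a + i) ≠ 0)) ⊆
        (Ioc E (E + 4 * (w + 1))).filter (fun i => θ (a + i) ≠ 0) := by
      intro x hx
      rw [Finset.mem_insert] at hx
      rw [Finset.mem_filter, Finset.mem_Ioc]
      rcases hx with rfl | hx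
      · exact ⟨⟨by omega, hi2⟩, hθ.odd _ hi3⟩
      · rw [Finset.mem_filter, Finset.mem_Ioc] at hx
        exact ⟨⟨hx.1.1, by omega⟩, hx.2⟩
    have hni : i ∉ (Ioc E (E + 4 * w)).filter (fun i => θ (a + i) ≠ 0) := by
      rw [Finset.mem_filter, Finset.mem_Ioc]
      omega
    have := Finset.card_le_card hsub
    rw [Finset.card_insert_of_notMem hni] at this
    omega

private lemma hpow_le {L : ℕ} (hL : 1 ≤ L) : 2 ^ L ≤ YY L ^ 2 := by
  have h1 : L ≤ 2 ^ (2 ^ (L - 1)) := by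
    have h2 : L - 1 < 2 ^ (L - 1) := Nat.lt_two_pow_self
    have h3 : 2 ^ (L - 1) < 2 ^ (2 ^ (L - 1)) := Nat.lt_two_pow_self
    omega
  have h2 : 2 ^ L ≤ YY L := by
    unfold YY
    exact Nat.pow_le_pow_right (by norm_num) h1
  exact h2.trans (Nat.le_self_pow (by norm_num) _)

open Classical in
/-- The core, for one sign class and one `L`. -/
theorem core_L (A : Set ℕ) {K : ℕ} (hA : Mult A K) (hK1 : 1 ≤ K) (θ ε : ℕ → ℤ)
    (hθ : Theta θ) (hε1 : ∀ p, |ε p| ≤ 1) (lam : ℝ) (hlam : 3 / 2 ≤ lam) (K₀ : ℕ)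
    (hD : ∀ y : ℕ, 2 ≤ y → Nonempty (Dyn lam (aR A ε θ y) ((K₀ : ℝ) ^ (y ^ 2))))
    (e₀ : ℤ) (he₀ : |e₀| = 1) (L : ℕ) (hKL : K ≤ L) (P : Finset ℕ) (hP : P.card = 2 ^ (L ^ 8))
    (hP2 : ∀ q ∈ P, (q.Prime ∧ q ∈ A ∧ ε q = e₀) ∧ 2 ^ (L ^ 8) < q ∧
      q ≤ 2 ^ (2 ^ (2 ^ (L - 2))))
    (h1 : 2 ≤ GG L ∧ GG L ≤ yy L ∧ 64 * (GG L : ℝ) ^ 2 ≤ Real.log (yy L))
    (h2 : 2 ≤ DD L ∧ 64 * (Real.log (yy L) * (1 + Real.log (yy L))) ≤ Real.log (DD L))
    (h3 : 64 * (GG L * DD L) ≤ WW L)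
    (h4 : 4 * ((VV L : ℝ) + 1) * (1 + Real.log (YY L)) < 2 ^ (2 ^ L + 1))
    (h5 : ∀ lam : ℝ, 3 / 2 ≤ lam → 4 * (BB' L : ℝ) + 2 * (30 * (L : ℝ)) < lam ^ GG L)
    (h6 : ∀ lam : ℝ, 3 / 2 ≤ lam → ∀ M ≤ YY L ^ 2, (Nat.log 2 M : ℝ) ≤ lam ^ (2 ^ L))
    (h6' : ∀ lam : ℝ, 3 / 2 ≤ lam → (RR L : ℝ) ≤ (30 * (L : ℝ)) * lam ^ (2 ^ L))
    (h7 : VV L ≤ 2 ^ (L ^ 8) ∧ yy L ≤ 2 ^ (L ^ 8))
    (h7' : L * (WW L * uB L) ≤ 2 ^ (L ^ 8))
    (h8 : 16 * (4 * QQ (GG L) (yy L) * ZZ L ^ (2 * (WW L * uB L))) ≤ YY L)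
    (h9 : VV L ≤ YY L)
    (h10 : (2 * BB' L + 1) ^ (WW L / 16) *
      ((2 * (K₀ ^ (yy L ^ 2) * (RR L + 1)) + 1) ^ 2) ^ DD L *
      (VV L + 2) ^ (L * yy L * DD L) < (2 ^ L) ^ (WW L / 4)) :
    False := by
  obtain ⟨hG2, hGy, hy⟩ := h1
  obtain ⟨hD2, hDlog⟩ := h2
  have hL1 : 1 ≤ L := hK1.trans hKL
  have hy2 : 2 ≤ yy L := hG2.trans hGy
  obtain ⟨dyn⟩ := hD (yy L) hy2
  obtain ⟨a, ha⟩ := exists_a (GG L) (yy L) (DD L) (WW L) (EE L) hG2 hGy hy hD2 hDlog h3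
  obtain ⟨I, hIdef⟩ : ∃ I, I = (Ioc (EE L) (EE L + WW L)).filter (fun i => θ (a + i) ≠ 0) :=
    ⟨_, rfl⟩
  have hWW : WW L = 4 * DD L ^ 2 := rfl
  have hVdef : VV L = 2 * EE L + WW L := rfl
  have hIcard : WW L / 4 ≤ I.card := by
    rw [hIdef, hWW, Nat.mul_div_cancel_left _ (by norm_num : 0 < 4)]
    exact card_I' hθ a (EE L) (DD L ^ 2)
  have hIle : I.card ≤ WW L := by
    rw [hIdef]
    refine (Finset.card_filter_le _ _).trans ?_
    rw [Nat.card_Ioc]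
    omega
  have hIV : ∀ i ∈ I, i ≤ VV L := by
    intro i hi
    rw [hIdef, Finset.mem_filter, Finset.mem_Ioc] at hi
    omega
  obtain ⟨P₁, hP₁, hPind, hPcard⟩ := exists_indep A hA P (fun p hp => (hP2 p hp).1.1)
    (fun p hp => (hP2 p hp).1.2.1)
  obtain ⟨q, hq1, hq2⟩ := exists_q P₁ I (uB L) (by
    have e1 : K * (I.card * uB L) ≤ K * P₁.card := by
      calc K * (I.card * uB L) ≤ L * (WW L * uB L) :=
            Nat.mul_le_mul hKL (Nat.mul_le_mul_right _ hIle)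
        _ ≤ 2 ^ (L ^ 8) := h7'
        _ = P.card := hP.symm
        _ ≤ K * P₁.card := hPcard
    exact Nat.le_of_mul_le_mul_left e1 hK1)
  have hQpos := qq_pos (GG L) (yy L)
  have hQpr : ∀ p, p.Prime → p ∣ QQ (GG L) (yy L) → p ≤ yy L := fun p hp h => (qq_prime hp h).2
  have hQ4 : ∀ p, p.Prime → p ∣ 4 * QQ (GG L) (yy L) → p ≤ yy L := by
    intro p hp h
    rcases (hp.dvd_mul).1 h with h | h
    · have : p ∣ 2 ^ 2 := by norm_num; exact h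
      have h2 := hp.dvd_of_dvd_pow this
      exact (Nat.le_of_dvd (by norm_num) h2).trans hy2
    · exact hQpr p hp h
  have hZ1 : 1 ≤ ZZ L := Nat.one_le_two_pow
  have hsize : 16 * (4 * QQ (GG L) (yy L) * ZZ L ^ (2 * (I.card * uB L))) ≤ YY L := by
    refine le_trans ?_ h8
    refine Nat.mul_le_mul_left _ (Nat.mul_le_mul_left _ ?_)
    exact Nat.pow_le_pow_right hZ1 (Nat.mul_le_mul_left 2 (Nat.mul_le_mul_right _ hIle))
  have hqq : ∀ i ∈ I, ∀ j < uB L, q i j ∈ P₁ ∧ (q i j).Prime ∧ q i j ∈ A ∧ yy L < q i j ∧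
      VV L < q i j ∧ q i j ≤ ZZ L ∧ ε (q i j) = e₀ := by
    intro i hi j hj
    have h0 := hq1 i hi j hj
    obtain ⟨⟨h1, h2, h3⟩, h4, h5⟩ := hP2 _ (hP₁ h0)
    exact ⟨h0, h1, h2, lt_of_le_of_lt h7.2 h4, lt_of_le_of_lt h7.1 h4, h5, h3⟩
  -- the integers
  have hex : ∀ t : I → Fin (2 ^ L), ∃ N, N ≡ a [MOD 4 * QQ (GG L) (yy L)] ∧ YY L ≤ N ∧
      N + VV L ≤ YY L ^ 2 ∧ ∀ i ≤ VV L, |fR A ε (yy L) (N + i) -
        (if h : i ∈ I then e₀ * (((2 * NN L + 1) * (t ⟨i, h⟩ : ℕ) : ℕ) : ℤ) else 0)| ≤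
          (NN L : ℤ) := by
    intro t
    obtain ⟨N, hN1, hN2, hN3, hN4⟩ := design A hA ε hε1 (yy L) (4 * QQ (GG L) (yy L)) (VV L)
      (YY L) (2 ^ L) a (uB L) (ZZ L) e₀ (by omega) P₁ hPind I q hIV (by omega) hQ4 hqq hq2 hZ1
      hsize h9 h4
      (fun i => if h : i ∈ I then (2 * NN L + 1) * (t ⟨i, h⟩ : ℕ) else 0) (by
        intro i
        split_ifs with h
        · exact Nat.mul_le_mul_left _ (t ⟨i, h⟩).2.le
        · exact Nat.zero_le _)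
    have hnn : ((K * 2 ^ L : ℕ) : ℤ) ≤ (NN L : ℤ) := by
      unfold NN
      exact_mod_cast Nat.mul_le_mul_right _ hKL
    refine ⟨N, hN1, hN2, hN3, fun i hi => ?_⟩
    have := (hN4 i hi).trans hnn
    by_cases h : i ∈ I
    · simp only [h, ↓reduceIte, ↓reduceDIte] at this ⊢
      exact this
    · simp only [h, ↓reduceIte, ↓reduceDIte] at this ⊢
      exact this
  choose N hN1 hN2 hN3 hN4 using hex
  have hYpos : 1 ≤ YY L := Nat.one_le_two_pow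
  have hNpos : ∀ t, 1 ≤ N t := fun t => hYpos.trans (hN2 t)
  have hpow : 0 < 2 ^ L := by positivity
  have hBall : ∀ t, ∀ i ≤ VV L, |fR A ε (yy L) (N t + i)| ≤ (BB' L : ℤ) := by
    intro t i hi
    have h := hN4 t i hi
    have hBdef : (BB' L : ℤ) = (uB L : ℤ) + (NN L : ℤ) := by
      unfold BB'
      push_cast
      ring
    rw [hBdef]
    split_ifs at h with hiI
    · have h3 : |e₀ * (((2 * NN L + 1) * (t ⟨i, hiI⟩ : ℕ) : ℕ) : ℤ)| ≤ (uB L : ℤ) := by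
        rw [abs_mul, he₀, one_mul, abs_of_nonneg (Int.natCast_nonneg _)]
        have h5 : (2 * NN L + 1) * (t ⟨i, hiI⟩ : ℕ) ≤ uB L :=
          Nat.mul_le_mul_left _ (t ⟨i, hiI⟩).2.le
        exact_mod_cast h5
      have h4 := abs_sub_abs_le_abs_sub (fR A ε (yy L) (N t + i))
        (e₀ * (((2 * NN L + 1) * (t ⟨i, hiI⟩ : ℕ) : ℕ) : ℤ))
      linarith
    · rw [sub_zero] at h
      have : (0:ℤ) ≤ (uB L : ℤ) := Int.natCast_nonneg _
      linarith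
  have hbet : ∀ t d i, i ≤ VV L → 0 < d → d ∣ N t + i →
      bet lam (aR A ε θ (yy L)) ((N t + i) / d) ≤ (RR L : ℝ) := by
    intro t d i hi hd0 hdi
    have e1 : 1 ≤ (N t + i) / d := by
      rw [Nat.one_le_div_iff hd0]
      have := hNpos t
      exact Nat.le_of_dvd (by omega) hdi
    have e2 : (N t + i) / d ≤ YY L ^ 2 := by
      refine (Nat.div_le_self _ _).trans ?_
      have := hN3 t
      omega
    have e3 := bet_crude hlam hA hε1 hθ.bd (by omega : 1 ≤ yy L) e1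
      (h6 lam hlam _ e2) (le_refl ((N t + i) / d + 2 ^ L))
    refine e3.trans (RR_ge hKL ?_)
    have := hpow_le hL1
    omega
  have hED : DD L ≤ EE L := by
    unfold EE
    exact Nat.le_mul_of_pos_right _ (by omega)
  -- different t give different vectors
  have hdiff : ∀ t t', (∀ i, EE L < i → i ≤ EE L + WW L → θ (a + i) ≠ 0 →
      fR A ε (yy L) (N t + i) = fR A ε (yy L) (N t' + i)) → t = t' := by
    intro t t' h
    funext ⟨i, hi⟩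
    have hi' := hi
    rw [hIdef, Finset.mem_filter, Finset.mem_Ioc] at hi'
    have h1 := h i hi'.1.1 hi'.1.2 hi'.2
    have h2 := hN4 t i (hIV i hi)
    have h3 := hN4 t' i (hIV i hi)
    rw [dif_pos hi] at h2 h3
    rw [← h1] at h3
    have h4 : |e₀ * (((2 * NN L + 1) * (t ⟨i, hi⟩ : ℕ) : ℕ) : ℤ) -
        e₀ * (((2 * NN L + 1) * (t' ⟨i, hi⟩ : ℕ) : ℕ) : ℤ)| ≤ 2 * (NN L : ℤ) := by
      have := abs_sub_le (e₀ * (((2 * NN L + 1) * (t ⟨i, hi⟩ : ℕ) : ℕ) : ℤ))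
        (fR A ε (yy L) (N t + i)) (e₀ * (((2 * NN L + 1) * (t' ⟨i, hi⟩ : ℕ) : ℕ) : ℤ))
      rw [abs_sub_comm] at h2
      linarith
    rw [← mul_sub, abs_mul, he₀, one_mul] at h4
    have h5 : (((2 * NN L + 1) * (t ⟨i, hi⟩ : ℕ) : ℕ) : ℤ) -
        (((2 * NN L + 1) * (t' ⟨i, hi⟩ : ℕ) : ℕ) : ℤ) =
        (2 * (NN L : ℤ) + 1) * (((t ⟨i, hi⟩ : ℕ) : ℤ) - ((t' ⟨i, hi⟩ : ℕ) : ℤ)) := by
      push_cast
      ring
    rw [h5, abs_mul, abs_of_nonneg (by positivity : (0:ℤ) ≤ 2 * (NN L : ℤ) + 1)] at h4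
    have h6 : |((t ⟨i, hi⟩ : ℕ) : ℤ) - ((t' ⟨i, hi⟩ : ℕ) : ℤ)| < 1 := by
      by_contra hcon
      push Not at hcon
      have h7 : (2 * (NN L : ℤ) + 1) * 1 ≤ (2 * (NN L : ℤ) + 1) *
          |((t ⟨i, hi⟩ : ℕ) : ℤ) - ((t' ⟨i, hi⟩ : ℕ) : ℤ)| :=
        mul_le_mul_of_nonneg_left hcon (by positivity)
      linarith
    rw [Int.abs_lt_one_iff, sub_eq_zero] at h6
    exact Fin.ext (by exact_mod_cast h6)
  have hNinj : Function.Injective N := by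
    intro t t' h
    refine hdiff t t' fun i _ _ _ => ?_
    rw [h]
  obtain ⟨𝒩, h𝒩⟩ : ∃ 𝒩 : Finset ℕ, 𝒩 = Finset.univ.image N := ⟨_, rfl⟩
  have hmem : ∀ M ∈ 𝒩, ∃ t, N t = M := by
    intro M hM
    rw [h𝒩, Finset.mem_image] at hM
    obtain ⟨t, -, ht⟩ := hM
    exact ⟨t, ht⟩
  have hcard : 𝒩.card = (2 ^ L) ^ I.card := by
    rw [h𝒩, Finset.card_image_of_injective _ hNinj, Finset.card_univ, Fintype.card_fun,
      Fintype.card_fin, Fintype.card_coe]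
  have hVH : EE L + WW L + 2 ^ L * DD L ≤ VV L := by
    have e1 : 2 ^ L * DD L ≤ EE L := by
      unfold EE
      rw [mul_comm]
      exact Nat.mul_le_mul_left _ (by omega)
    omega
  have hcount := count (lam := lam) (K := (K₀ : ℝ) ^ (yy L ^ 2)) hlam hA (by omega : 1 ≤ yy L) hθ
    dyn (Q := QQ (GG L) (yy L)) (D := DD L) (G := GG L) (E := EE L) (W := WW L) (V := VV L)
    (X := YY L ^ 2) (H := 2 ^ L) (a := a) (B := BB' L)
    (K₁ := K₀ ^ (yy L ^ 2) * (RR L + 1)) (Rc := (RR L : ℝ)) (ρ := 30 * (L : ℝ)) hQpr hQpos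
    (qq_odd hG2) (h5 lam hlam) (h6' lam hlam) hVH (by positivity) (by
      push_cast
      refine le_of_eq ?_
      ring) 𝒩 (by
      intro M hM
      obtain ⟨t, rfl⟩ := hmem M hM
      exact hNpos t) (by
      intro M hM
      obtain ⟨t, rfl⟩ := hmem M hM
      exact hN3 t) (by
      intro M hM
      obtain ⟨t, rfl⟩ := hmem M hM
      exact hN1 t) (by
      intro M hM i hi
      obtain ⟨t, rfl⟩ := hmem M hM
      exact hBall t i hi) (by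
      intro M hM i d hi hd0 _ _ hdi
      obtain ⟨t, rfl⟩ := hmem M hM
      exact hbet t d i hi hd0 hdi) (by
      intro M hM d hd0 hdQ hdD
      obtain ⟨t, rfl⟩ := hmem M hM
      have e1 := i0_gt a (EE L) hd0
      have e2 := i0_dvd a (EE L) hd0
      have e3 := i0_le a (EE L) hd0
      have e4 : d ∣ N t + i0 a (EE L) d := by
        have h1 : N t + i0 a (EE L) d ≡ a + i0 a (EE L) d [MOD d] :=
          Nat.ModEq.add_right _ ((hN1 t).of_dvd (Dvd.dvd.mul_left hdQ 4))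
        exact (h1.dvd_iff dvd_rfl).2 e2
      have e5 : d ∣ N t + (i0 a (EE L) d - d) := by
        have : N t + (i0 a (EE L) d - d) = N t + i0 a (EE L) d - d := by omega
        rw [this]
        exact Nat.dvd_sub e4 dvd_rfl
      have e6 : (N t + i0 a (EE L) d) / d - 1 = (N t + (i0 a (EE L) d - d)) / d := by
        have : N t + i0 a (EE L) d = N t + (i0 a (EE L) d - d) + d := by omega
        rw [this, Nat.add_div_right _ hd0]
        rfl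
      rw [e6]
      exact hbet t d _ (by omega) hd0 e5) (by
      intro M hM M' hM' h
      obtain ⟨t, rfl⟩ := hmem M hM
      obtain ⟨t', rfl⟩ := hmem M' hM'
      rw [hdiff t t' h])
  rw [hcard] at hcount
  have hBadle : (Bad (QQ (GG L) (yy L)) (DD L) (GG L) (EE L) (WW L) a).card ≤ WW L / 16 := by
    omega
  have hfin : (2 ^ L) ^ (WW L / 4) ≤ (2 * BB' L + 1) ^ (WW L / 16) *
      ((2 * (K₀ ^ (yy L ^ 2) * (RR L + 1)) + 1) ^ 2) ^ DD L *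
      (VV L + 2) ^ (L * yy L * DD L) := by
    refine (Nat.pow_le_pow_right hpow hIcard).trans (hcount.trans ?_)
    refine Nat.mul_le_mul (Nat.mul_le_mul_right _ (Nat.pow_le_pow_right (by omega) hBadle)) ?_
    exact Nat.pow_le_pow_right (by omega) (Nat.mul_le_mul_right _ (Nat.mul_le_mul_right _ hKL))
  omega

open Classical in
theorem core (A : Set ℕ) {K : ℕ} (hA : Mult A K) (hK1 : 1 ≤ K)
    (AP : Set ℕ) (hAP : ∀ p, p ∈ AP ↔ p.Prime ∧ p ∈ A)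
    (hdiv : ¬ Summable (fun p : ℕ => if p ∈ AP then 1 / (p : ℝ) else 0))
    (θ ε : ℕ → ℤ)
    (hθ : Theta θ) (hε1 : ∀ p, |ε p| ≤ 1) (hε2 : ∀ p, p.Prime → 2 < p → ε p = 1 ∨ ε p = -1)
    (lam : ℝ) (hlam : 3 / 2 ≤ lam) (K₀ : ℕ)
    (hD : ∀ y : ℕ, 2 ≤ y → Nonempty (Dyn lam (aR A ε θ y) ((K₀ : ℝ) ^ (y ^ 2)))) : False := by
  obtain ⟨L₀, hL₀⟩ := eventually_atTop.1 (p1.and (p2.and (p3.and (p4.and (q5.and (p6.and
    (q6.and (p7.and (q7.and (q8.and (p9.and ((q10 K₀).and (eventually_ge_atTop K)))))))))))))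
  have key : ∀ e₀ : ℤ, |e₀| = 1 → ∀ A₀ : Set ℕ, (∀ p ∈ A₀, p.Prime ∧ p ∈ A ∧ ε p = e₀) →
      ¬ Summable (fun p : ℕ => if p ∈ A₀ then 1 / (p : ℝ) else 0) → False := by
    intro e₀ he₀ A₀ hA₀ hns
    obtain ⟨L, hL, P, hP, hP2⟩ := many A₀ hns L₀
    obtain ⟨h1, h2, h3, h4, h5, h6, h6', h7, h7', h8, h9, h10, h11⟩ := hL₀ L hL
    exact core_L A hA hK1 θ ε hθ hε1 lam hlam K₀ hD e₀ he₀ L h11 P hP
      (fun q hq => ⟨hA₀ q (hP2 q hq).1, (hP2 q hq).2⟩) h1 h2 h3 h4 h5 h6 h6' h7.2 h7' h8 h9 h10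
  apply hdiv
  obtain ⟨A₁, hA₁⟩ : ∃ A₁ : Set ℕ, ∀ p, p ∈ A₁ ↔ p.Prime ∧ p ∈ A ∧ ε p = 1 :=
    ⟨{p | p.Prime ∧ p ∈ A ∧ ε p = 1}, fun p => Iff.rfl⟩
  obtain ⟨A₂, hA₂⟩ : ∃ A₂ : Set ℕ, ∀ p, p ∈ A₂ ↔ p.Prime ∧ p ∈ A ∧ ε p = -1 :=
    ⟨{p | p.Prime ∧ p ∈ A ∧ ε p = -1}, fun p => Iff.rfl⟩
  have hs1 : Summable (fun p : ℕ => if p ∈ A₁ then 1 / (p : ℝ) else 0) := by
    by_contra h
    exact key 1 (by norm_num) A₁ (fun p hp => (hA₁ p).1 hp) h
  have hs2 : Summable (fun p : ℕ => if p ∈ A₂ then 1 / (p : ℝ) else 0) := by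
    by_contra h
    exact key (-1) (by norm_num) A₂ (fun p hp => (hA₂ p).1 hp) h
  have hs3 : Summable (fun p : ℕ => if p = 2 then 1 / (p : ℝ) else 0) := by
    refine summable_of_hasFiniteSupport ?_
    refine (Set.finite_singleton 2).subset ?_
    intro p hp
    rw [Function.mem_support] at hp
    by_contra h
    exact hp (if_neg h)
  have e0 : ∀ p : ℕ, (0:ℝ) ≤ 1 / (p:ℝ) := fun p => by positivity
  have hnn : ∀ (c : Prop) (_ : Decidable c) (p : ℕ), (0:ℝ) ≤ if c then 1 / (p : ℝ) else 0 := by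
    intro c _ p
    split_ifs
    · exact e0 p
    · exact le_rfl
  refine Summable.of_nonneg_of_le (fun p => hnn _ _ p) ?_ ((hs1.add hs2).add hs3)
  intro p
  have a1 := hnn (p ∈ A₁) inferInstance p
  have a2 := hnn (p ∈ A₂) inferInstance p
  have a3 := hnn (p = 2) inferInstance p
  by_cases hp : p ∈ AP
  · rw [if_pos hp]
    obtain ⟨hpp, hpA⟩ := (hAP p).1 hp
    by_cases hp2 : 2 < p
    · rcases hε2 p hpp hp2 with h | h
      · have h1 : p ∈ A₁ := (hA₁ p).2 ⟨hpp, hpA, h⟩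
        rw [if_pos h1]
        linarith
      · have h1 : p ∈ A₂ := (hA₂ p).2 ⟨hpp, hpA, h⟩
        rw [if_pos h1]
        linarith
    · have hp3 : p = 2 := le_antisymm (by omega) hpp.two_le
      rw [if_pos hp3]
      linarith
  · rw [if_neg hp]
    linarith

end Pool.Agent.Helper51.BM
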