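import Pool.Agent.Helper51.BM.Unique

/-!
# MP_175197_nt, project BM: the number of admissible integers
-/

set_option autoImplicit false

namespace Pool.Agent.Helper51.BM

open Finset
open Pool.Agent.Helper9.PF

theorem count {lam K : ℝ} (hlam : 3 / 2 ≤ lam) {A : Set ℕ} {KA : ℕ} (hA : Mult A KA)
    {ε θ : ℕ → ℤ} {y : ℕ} (hy : 1 ≤ y)
    (hθ : Theta θ) (dyn : Dyn lam (aR A ε θ y) K) {Q D G E W V X H a B K₁ : ℕ} {Rc ρ : ℝ}
    (hQ : ∀ p, p.Prime → p ∣ Q → p ≤ y) (hQ0 : 0 < Q) (hQodd : Odd Q)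
    (hG : 4 * (B : ℝ) + 2 * ρ < lam ^ G) (hRc : Rc ≤ ρ * lam ^ H) (hV : E + W + H * D ≤ V)
    (hK0 : 0 ≤ K) (hK : K * (1 + Rc) ≤ K₁) (𝒩 : Finset ℕ)
    (h1 : ∀ N ∈ 𝒩, 1 ≤ N) (hX : ∀ N ∈ 𝒩, N + V ≤ X) (hmod : ∀ N ∈ 𝒩, N ≡ a [MOD 4 * Q])
    (hB : ∀ N ∈ 𝒩, ∀ i ≤ V, |fR A ε y (N + i)| ≤ (B : ℤ))
    (hR : ∀ N ∈ 𝒩, ∀ i d, i ≤ V → 0 < d → d ∣ Q → d ≤ D → d ∣ N + i →
      bet lam (aR A ε θ y) ((N + i) / d) ≤ Rc)
    (hst : ∀ N ∈ 𝒩, ∀ d, 0 < d → d ∣ Q → d ≤ D →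
      bet lam (aR A ε θ y) ((N + i0 a E d) / d - 1) ≤ Rc)
    (hinj : ∀ N ∈ 𝒩, ∀ N' ∈ 𝒩, (∀ i, E < i → i ≤ E + W → θ (a + i) ≠ 0 →
      fR A ε y (N + i) = fR A ε y (N' + i)) → N = N') :
    𝒩.card ≤ (2 * B + 1) ^ (Bad Q D G E W a).card * ((2 * K₁ + 1) ^ 2) ^ D *
      (V + 2) ^ (KA * y * D) := by
  classical
  obtain ⟨S, hS⟩ : ∃ S : Finset ℕ, S = (Icc 1 D).filter (fun d => d ∣ Q) := ⟨_, rfl⟩
  have hSm : ∀ d, d ∈ S ↔ (1 ≤ d ∧ d ≤ D) ∧ d ∣ Q := by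
    intro d
    rw [hS, mem_filter, mem_Icc]
  have hScard : S.card ≤ D := by
    rw [hS]
    refine (card_le_card (filter_subset _ _)).trans ?_
    rw [Nat.card_Icc]
    omega
  obtain ⟨C, hC⟩ : ∃ C : Finset (ℕ × ℕ), C = SC A y X ×ˢ S := ⟨_, rfl⟩
  have hCcard : C.card ≤ KA * y * D := by
    rw [hC, card_product]
    exact Nat.mul_le_mul (card_SC hA hy X) hScard
  let g : ℕ → (((Bad Q D G E W a) → ℤ) × (S → ℤ × ℤ)) × (C → ℕ) := fun N =>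
    ((fun i => fR A ε y (N + (i : ℕ)), fun d => dyn.w ((N + i0 a E (d : ℕ)) / (d : ℕ) - 1)),
      fun c => cd V ((c : ℕ × ℕ).2 * (c : ℕ × ℕ).1) N)
  let T : Finset ((((Bad Q D G E W a) → ℤ) × (S → ℤ × ℤ)) × (C → ℕ)) :=
    ((Fintype.piFinset fun _ => Icc (-(B : ℤ)) B) ×ˢ
      (Fintype.piFinset fun _ => Icc (-(K₁ : ℤ)) K₁ ×ˢ Icc (-(K₁ : ℤ)) K₁)) ×ˢ
      (Fintype.piFinset fun _ => range (V + 2))
  have hI : ∀ k : ℕ, (Icc (-(k : ℤ)) k).card = 2 * k + 1 := by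
    intro k
    rw [Int.card_Icc]
    omega
  have hT : T.card = (2 * B + 1) ^ (Bad Q D G E W a).card * ((2 * K₁ + 1) ^ 2) ^ S.card *
      (V + 2) ^ C.card := by
    show (((Fintype.piFinset fun _ : (Bad Q D G E W a) => Icc (-(B : ℤ)) B) ×ˢ
      (Fintype.piFinset fun _ : S => Icc (-(K₁ : ℤ)) K₁ ×ˢ Icc (-(K₁ : ℤ)) K₁)) ×ˢ
      (Fintype.piFinset fun _ : C => range (V + 2))).card = _
    rw [card_product, card_product, Fintype.card_piFinset, Fintype.card_piFinset,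
      Fintype.card_piFinset, prod_const, prod_const, prod_const,
      card_product, hI, hI, card_univ, card_univ, card_univ, Fintype.card_coe, Fintype.card_coe,
      Fintype.card_coe, card_range, ← sq]
  have hmaps : ∀ N ∈ 𝒩, g N ∈ T := by
    intro N hN
    refine mem_product.2 ⟨mem_product.2 ⟨Fintype.mem_piFinset.2 fun i => ?_,
      Fintype.mem_piFinset.2 fun d => ?_⟩, Fintype.mem_piFinset.2 fun c => ?_⟩
    · rw [mem_Icc, ← abs_le]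
      have hi : (i : ℕ) ∈ Bad Q D G E W a := i.2
      unfold Bad at hi
      rw [mem_filter, mem_Ioc] at hi
      exact hB N hN i (by omega)
    · obtain ⟨⟨hd1, hd2⟩, hd3⟩ := (hSm d).1 d.2
      have hb := hst N hN d hd1 hd3 hd2
      have hb2 : K * (1 + bet lam (aR A ε θ y) ((N + i0 a E (d : ℕ)) / (d : ℕ) - 1)) ≤ K₁ :=
        (mul_le_mul_of_nonneg_left (by linarith) hK0).trans hK
      have e1 := (dyn.bd1 ((N + i0 a E (d : ℕ)) / (d : ℕ) - 1)).trans hb2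
      have e2 := (dyn.bd2 ((N + i0 a E (d : ℕ)) / (d : ℕ) - 1)).trans hb2
      rw [mem_product, mem_Icc, mem_Icc, ← abs_le, ← abs_le]
      exact ⟨by exact_mod_cast e1, by exact_mod_cast e2⟩
    · rw [mem_range]
      have := cd_le V ((c : ℕ × ℕ).2 * (c : ℕ × ℕ).1) N
      show cd V ((c : ℕ × ℕ).2 * (c : ℕ × ℕ).1) N < V + 2
      omega
  have hinj' : Set.InjOn g (𝒩 : Set ℕ) := by
    intro N hN N' hN' heq
    rw [mem_coe] at hN hN'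
    refine hinj N hN N' hN' ?_
    have heq1 : (g N).1 = (g N').1 := congrArg Prod.fst heq
    have heq2 : (g N).2 = (g N').2 := congrArg Prod.snd heq
    refine unique (V := V) (B := B) hlam hθ dyn hQ hQ0 hQodd hG hRc hV (h1 N hN) (h1 N' hN')
      (hmod N hN) (hmod N' hN') (hR N hN) (hR N' hN') (hB N hN) (hB N' hN') ?_ ?_ ?_
    · intro i d hi hd0 hdQ hdD hdN hdN'
      refine gR_eq ε (X := X) hd0 (h1 N hN) (h1 N' hN') (hX N hN) (hX N' hN') hi hdN hdN' ?_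
      intro c hc
      have hcd : (c, d) ∈ C := by
        rw [hC, mem_product]
        exact ⟨hc, (hSm d).2 ⟨⟨hd0, hdD⟩, hdQ⟩⟩
      exact congrFun heq2 ⟨(c, d), hcd⟩
    · intro d hd0 hdQ hdD
      have hd : d ∈ S := (hSm d).2 ⟨⟨hd0, hdD⟩, hdQ⟩
      exact congrFun (congrArg Prod.snd heq1) ⟨d, hd⟩
    · intro i hi _
      exact congrFun (congrArg Prod.fst heq1) ⟨i, hi⟩
  refine (card_le_card_of_injOn g hmaps hinj').trans ?_
  rw [hT]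
  refine Nat.mul_le_mul ?_ ?_
  · exact Nat.mul_le_mul_left _ (Nat.pow_le_pow_right (by positivity) hScard)
  · exact Nat.pow_le_pow_right (by positivity) hCcard

end Pool.Agent.Helper51.BM
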