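import Pool.Agent.Helper51.BM.Basic
import Pool.Agent.Helper9.PF.DynFib

/-!
# MP_175197_nt, project BM: the dynamical systems of the Fibonacci series over a set of odd numbers

As `Helper9/PF/DynFib.lean`; primality was used there only through parity.
-/

set_option autoImplicit false

namespace Pool.Agent.Helper51.BM

open Finset
open Pool.Agent.Helper9.PF

private lemma chi_two_mul_add_one (b : ℕ) : chi (2 * b + 1) = (-1) ^ b := by
  unfold chi
  rcases Nat.even_or_odd b with h | h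
  · rw [h.neg_one_pow]
    obtain ⟨k, hk⟩ := h
    rw [if_pos (by omega)]
  · rw [h.neg_one_pow]
    obtain ⟨k, hk⟩ := h
    rw [if_neg (by omega), if_pos (by omega)]

private lemma chi_even {l : ℕ} (h : Even l) : chi l = 0 := by
  unfold chi
  obtain ⟨k, hk⟩ := h
  rw [if_neg (by omega), if_neg (by omega)]

private lemma c_eq {p m : ℕ} (hp : Odd p) (hpm : p ∣ m) :
    Pool.Agent.Helper9.Fib.c p m = chi m * chi p := by
  obtain ⟨l, rfl⟩ := hpm
  obtain ⟨a, ha⟩ := hp
  have hp0 : 0 < p := by omega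
  have hpp : chi p * chi p = 1 := by
    rw [ha, chi_two_mul_add_one, ← mul_pow]
    norm_num
  unfold Pool.Agent.Helper9.Fib.c
  rw [Nat.mul_div_cancel_left l hp0, theta_chi.mul]
  rcases Nat.even_or_odd l with h | h
  · rw [if_neg, chi_even h]
    · ring
    · rintro ⟨-, h'⟩
      exact Nat.not_odd_iff_even.2 h h'
  · rw [if_pos ⟨dvd_mul_right _ _, h⟩]
    obtain ⟨b, hb⟩ := h
    have e : (p * l - p) / 2 = p * b := by
      rw [hb, Nat.mul_add, mul_one, Nat.add_sub_cancel, mul_left_comm,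
        Nat.mul_div_cancel_left _ (by norm_num)]
    have hl : chi l = (-1) ^ b := by rw [hb, chi_two_mul_add_one]
    rw [e, pow_mul, Odd.neg_one_pow ⟨a, ha⟩, hl]
    linear_combination (-(-1) ^ b) * hpp

theorem a_eq_aR (A : Set ℕ) (hA : ∀ n ∈ A, Odd n) (y : ℕ) (m : ℕ) :
    Pool.Agent.Helper9.Fib.a {p | p ∈ A ∧ y < p} m = aR A chi chi y m := by
  classical
  obtain ⟨A', hA', hmem⟩ : ∃ A' : Set ℕ, A' = {p | p ∈ A ∧ y < p} ∧
      ∀ p, p ∈ A' ↔ p ∈ A ∧ y < p := ⟨_, rfl, fun p => Iff.rfl⟩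
  rw [← hA']
  unfold Pool.Agent.Helper9.Fib.a aR FR
  rcases Nat.eq_zero_or_pos m with rfl | hm
  · simp
  rw [← Finset.sum_filter, Finset.mul_sum]
  symm
  apply Finset.sum_subset_zero_on_sdiff
  · intro p hp
    rw [Finset.mem_filter, Nat.mem_divisors] at hp
    rw [Finset.mem_filter, Finset.mem_Icc, hmem]
    exact ⟨⟨(hA p hp.2.1).pos, Nat.le_of_dvd hm hp.1.1⟩, hp.2⟩
  · intro p hp
    rw [Finset.mem_sdiff, Finset.mem_filter, Finset.mem_filter, Nat.mem_divisors, hmem] at hp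
    obtain ⟨⟨-, hpA, hpy⟩, hp2⟩ := hp
    by_contra hc
    have := (Pool.Agent.Helper9.Fib.c_ne_zero_iff p m).1 hc
    exact hp2 ⟨⟨this.1, hm.ne'⟩, hpA, hpy⟩
  · intro p hp
    rw [Finset.mem_filter, Nat.mem_divisors] at hp
    rw [c_eq _ hp.1.1]
    exact hA p hp.2.1

private lemma fib_lower (n : ℕ) : (3 / 2 : ℝ) ^ (n + 1) ≤ 3 * (Nat.fib (n + 1) : ℝ) := by
  induction n using Nat.twoStepInduction with
  | zero => norm_num
  | one => norm_num
  | more n ih1 ih2 =>
    rw [show n + 2 + 1 = (n + 1) + 2 by ring, Nat.fib_add_two]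
    push_cast
    have e1 : (3 / 2 : ℝ) ^ (n + 1 + 2) = (3 / 2) ^ (n + 1) * (9 / 4) := by ring
    have e2 : (3 / 2 : ℝ) ^ (n + 1 + 1) = (3 / 2) ^ (n + 1) * (3 / 2) := by ring
    have h3 : (0 : ℝ) < (3 / 2) ^ (n + 1) := by positivity
    rw [e1]
    rw [e2] at ih2
    linarith

private lemma inv_fib_le (n : ℕ) : 1 / (Nat.fib n : ℝ) ≤ 3 * (2 / 3 : ℝ) ^ n := by
  rcases Nat.eq_zero_or_pos n with rfl | hn
  · norm_num
  · obtain ⟨k, rfl⟩ : ∃ k, n = k + 1 := ⟨n - 1, by omega⟩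
    have h1 := fib_lower k
    have h2 : (0 : ℝ) < (Nat.fib (k + 1) : ℝ) := by exact_mod_cast Nat.fib_pos.2 hn
    have h3 : (0 : ℝ) < (3 / 2) ^ (k + 1) := by positivity
    have h4 : (2 / 3 : ℝ) ^ (k + 1) = ((3 / 2 : ℝ) ^ (k + 1))⁻¹ := by
      rw [← inv_pow]; norm_num
    rw [h4, div_le_iff₀ h2, mul_assoc, inv_mul_eq_div, ← mul_div_assoc, le_div_iff₀ h3]
    linarith

private lemma summable_bd : Summable (fun n : ℕ => 3 * (2 / 3 : ℝ) ^ n) :=
  (summable_geometric_of_lt_one (by norm_num) (by norm_num)).mul_left 3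

private lemma tsum_bd : ∑' n : ℕ, 3 * (2 / 3 : ℝ) ^ n = 9 := by
  rw [tsum_mul_left, tsum_geometric_of_lt_one (by norm_num) (by norm_num)]
  norm_num

open Classical in
private lemma summable_ind (B : Set ℕ) :
    Summable (fun n : ℕ => if n ∈ B then 1 / (Nat.fib n : ℝ) else 0) := by
  refine Summable.of_nonneg_of_le (fun n => ?_) (fun n => ?_) summable_bd
  · split_ifs <;> positivity
  · split_ifs
    · exact inv_fib_le n
    · positivity

open Classical in
private lemma tsum_ind (B : Set ℕ) :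
    0 ≤ (∑' n : ℕ, if n ∈ B then 1 / (Nat.fib n : ℝ) else 0) ∧
      (∑' n : ℕ, if n ∈ B then 1 / (Nat.fib n : ℝ) else 0) ≤ 9 := by
  constructor
  · refine tsum_nonneg fun n => ?_
    split_ifs <;> positivity
  · rw [← tsum_bd]
    refine (summable_ind B).tsum_le_tsum (fun n => ?_) summable_bd
    split_ifs
    · exact inv_fib_le n
    · positivity

private lemma fib_le_two_pow (n : ℕ) : Nat.fib n ≤ 2 ^ n := by
  induction n using Nat.twoStepInduction with
  | zero => norm_num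
  | one => norm_num
  | more n ih1 ih2 =>
    rw [Nat.fib_add_two]
    have e1 : 2 ^ (n + 2) = 4 * 2 ^ n := by ring
    have e2 : 2 ^ (n + 1) = 2 * 2 ^ n := by ring
    rw [e1]
    rw [e2] at ih2
    omega

private lemma int_sum (S : Finset ℕ) (hS : ∀ p ∈ S, 0 < Nat.fib p) :
    ∃ w : ℤ, ((∏ p ∈ S, Nat.fib p : ℕ) : ℝ) * ∑ p ∈ S, 1 / (Nat.fib p : ℝ) = (w : ℝ) := by
  classical
  refine ⟨∑ q ∈ S, ∏ p ∈ S.erase q, (Nat.fib p : ℤ), ?_⟩
  push_cast
  rw [Finset.mul_sum]
  refine Finset.sum_congr rfl fun q hq => ?_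
  have h1 : (Nat.fib q : ℝ) ≠ 0 := by
    have := hS q hq
    positivity
  rw [← Finset.mul_prod_erase S _ hq]
  field_simp

private def dyn_mono {lam : ℝ} (hlam : 3 / 2 ≤ lam) {a : ℕ → ℤ} {K K' : ℝ} (hK : K ≤ K')
    (D : Dyn lam a K) : Dyn lam a K' where
  w := D.w
  T := D.T
  R := D.R
  c := D.c
  c_ne := D.c_ne
  step := D.step
  Rstep := D.Rstep
  Rbd := D.Rbd
  bd1 M := (D.bd1 M).trans (mul_le_mul_of_nonneg_right hK (by
    have := bet_nonneg lam hlam a M
    linarith))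
  bd2 M := (D.bd2 M).trans (mul_le_mul_of_nonneg_right hK (by
    have := bet_nonneg lam hlam a M
    linarith))

private lemma half_le_golden : (3 / 2 : ℝ) ≤ Real.goldenRatio := by
  unfold Real.goldenRatio
  have : (2 : ℝ) ≤ √5 := by
    rw [Real.le_sqrt (by norm_num) (by norm_num)]
    norm_num
  linarith

open Classical in
theorem dynFib (A : Set ℕ) (hA : ∀ n ∈ A, Odd n)
    (hrat : ¬ Irrational (∑' p : ℕ, if p ∈ A then 1 / (Nat.fib p : ℝ) else 0)) :
    ∃ K₀ : ℕ, ∀ y : ℕ, 2 ≤ y →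
      Nonempty (Dyn Real.goldenRatio (aR A chi chi y) ((K₀ : ℝ) ^ (y ^ 2))) := by
  obtain ⟨q, hq⟩ : ∃ q : ℚ, (q : ℝ) = ∑' p : ℕ, if p ∈ A then 1 / (Nat.fib p : ℝ) else 0 := by
    unfold Irrational at hrat
    push Not at hrat
    exact hrat
  refine ⟨120 * q.den, fun y hy => ?_⟩
  obtain ⟨A', hA', hmem⟩ : ∃ A' : Set ℕ, A' = {p | p ∈ A ∧ y < p} ∧
      ∀ p, p ∈ A' ↔ p ∈ A ∧ y < p := ⟨_, rfl, fun p => Iff.rfl⟩
  obtain ⟨A'', hmem'⟩ : ∃ A'' : Set ℕ, ∀ p, p ∈ A'' ↔ p ∈ A ∧ p ≤ y :=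
    ⟨{p | p ∈ A ∧ p ≤ y}, fun p => Iff.rfl⟩
  have hfa : Pool.Agent.Helper9.Fib.a A' = aR A chi chi y := by
    rw [hA']
    exact funext fun m => a_eq_aR A hA y m
  have hSprime : ∀ p ∈ (Finset.range (y + 1)).filter (fun p => p ∈ A), Odd p := by
    intro p hp
    exact hA p (Finset.mem_filter.1 hp).2
  have hSpos : ∀ p ∈ (Finset.range (y + 1)).filter (fun p => p ∈ A), 0 < Nat.fib p := by
    intro p hp
    exact Nat.fib_pos.2 (hSprime p hp).pos
  obtain ⟨w, hw⟩ := int_sum _ hSpos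
  have hsplit : (∑' n : ℕ, if n ∈ A' then 1 / (Nat.fib n : ℝ) else 0) =
      (q : ℝ) - ∑ p ∈ (Finset.range (y + 1)).filter (fun p => p ∈ A), 1 / (Nat.fib p : ℝ) := by
    have h1 : (∑' n : ℕ, if n ∈ A'' then 1 / (Nat.fib n : ℝ) else 0) =
        ∑ p ∈ (Finset.range (y + 1)).filter (fun p => p ∈ A), 1 / (Nat.fib p : ℝ) := by
      rw [tsum_eq_sum (s := (Finset.range (y + 1)).filter (fun p => p ∈ A))]
      · refine Finset.sum_congr rfl fun p hp => ?_
        rw [Finset.mem_filter, Finset.mem_range] at hp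
        rw [if_pos]
        exact (hmem' p).2 ⟨hp.2, by omega⟩
      · intro p hp
        rw [if_neg]
        intro h23
        obtain ⟨h2, h3⟩ := (hmem' p).1 h23
        apply hp
        rw [Finset.mem_filter, Finset.mem_range]
        exact ⟨by omega, h2⟩
    rw [hq, ← h1, eq_sub_iff_add_eq, ← (summable_ind _).tsum_add (summable_ind _)]
    refine tsum_congr fun n => ?_
    by_cases h2 : n ∈ A
    · by_cases h3 : y < n
      · rw [if_pos ((hmem n).2 ⟨h2, h3⟩),
          if_neg (fun h => absurd ((hmem' n).1 h).2 (by omega)), if_pos h2, add_zero]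
      · rw [if_neg (fun h => h3 ((hmem n).1 h).2), if_pos ((hmem' n).2 ⟨h2, by omega⟩),
          if_pos h2, zero_add]
    · rw [if_neg (fun h => h2 ((hmem n).1 h).1), if_neg (fun h => h2 ((hmem' n).1 h).1),
        if_neg h2, add_zero]
  have hbd := tsum_ind A'
  generalize hV : (∏ p ∈ (Finset.range (y + 1)).filter (fun p => p ∈ A), Nat.fib p : ℕ) = V at hw
  have hVpos : 0 < V := by
    rw [← hV]
    exact Finset.prod_pos hSpos
  have hVle : V ≤ 2 ^ (y ^ 2) := by
    rw [← hV]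
    calc ∏ p ∈ (Finset.range (y + 1)).filter (fun p => p ∈ A), Nat.fib p
        ≤ ∏ p ∈ (Finset.range (y + 1)).filter (fun p => p ∈ A), 2 ^ y := by
          refine Finset.prod_le_prod (fun p _ => Nat.zero_le _) fun p hp => ?_
          rw [Finset.mem_filter, Finset.mem_range] at hp
          exact (fib_le_two_pow p).trans (Nat.pow_le_pow_right (by norm_num) (by omega))
      _ = (2 ^ y) ^ ((Finset.range (y + 1)).filter (fun p => p ∈ A)).card := by
          rw [Finset.prod_const]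
      _ ≤ (2 ^ y) ^ y := by
          refine Nat.pow_le_pow_right (by positivity) ?_
          have h1 : (Finset.range (y + 1)).filter (fun p => p ∈ A) ⊆ Finset.Icc 1 y := by
            intro p hp
            have h2 := (hSprime p hp).pos
            rw [Finset.mem_filter, Finset.mem_range] at hp
            rw [Finset.mem_Icc]
            omega
          have h3 := Finset.card_le_card h1
          rw [Nat.card_Icc] at h3
          omega
      _ = 2 ^ (y ^ 2) := by rw [← pow_mul, sq]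
  have hden : (0 : ℝ) < (q.den : ℝ) := by exact_mod_cast q.den_pos
  have hVR : (0 : ℝ) < (V : ℝ) := by exact_mod_cast hVpos
  have hsum : ∑ p ∈ (Finset.range (y + 1)).filter (fun p => p ∈ A), 1 / (Nat.fib p : ℝ) =
      (w : ℝ) / (V : ℝ) := by
    rw [← hw]
    field_simp
  have hqr : (q : ℝ) = (q.num : ℝ) / (q.den : ℝ) := by
    exact_mod_cast (Rat.num_div_den q).symm
  have hY : (∑' n : ℕ, if n ∈ A' then 1 / (Nat.fib n : ℝ) else 0) =
      ((q.num * V - q.den * w : ℤ) : ℝ) / ((q.den * V : ℕ) : ℝ) := by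
    rw [hsplit, hsum, hqr]
    push_cast
    field_simp
  have h0 : 0 ∉ A' := fun h => absurd ((hmem 0).1 h).2 (by omega)
  have hD := dyn_of_eq A' h0 (q.num * V - q.den * w) (q.den * V)
    (Nat.mul_pos q.den_pos hVpos) hY
  rw [hfa] at hD
  obtain ⟨D⟩ := hD
  refine ⟨dyn_mono half_le_golden ?_ D⟩
  rw [hY] at hbd
  have hv : (0 : ℝ) < ((q.den * V : ℕ) : ℝ) := by
    push_cast
    positivity
  have hu0 : (0 : ℝ) ≤ ((q.num * V - q.den * w : ℤ) : ℝ) := by
    by_contra hcon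
    push Not at hcon
    exact absurd hbd.1 (not_le.2 (div_neg_of_neg_of_pos hcon hv))
  have hu9 : ((q.num * V - q.den * w : ℤ) : ℝ) ≤ 9 * ((q.den * V : ℕ) : ℝ) := by
    have := hbd.2
    rwa [div_le_iff₀ hv] at this
  rw [abs_of_nonneg hu0]
  have h1 : 6 * (((q.den * V : ℕ) : ℝ) + ((q.num * V - q.den * w : ℤ) : ℝ)) ≤
      60 * ((q.den * V : ℕ) : ℝ) := by linarith
  refine h1.trans ?_
  have h2 : 60 * (q.den * V) ≤ (120 * q.den) ^ (y ^ 2) := by
    have hy2 : y ^ 2 ≠ 0 := by positivity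
    calc 60 * (q.den * V) = (60 * q.den) * V := by ring
      _ ≤ (60 * q.den) * 2 ^ (y ^ 2) := Nat.mul_le_mul_left _ hVle
      _ ≤ (60 * q.den) ^ (y ^ 2) * 2 ^ (y ^ 2) := by
          refine Nat.mul_le_mul_right _ (Nat.le_self_pow hy2 _)
      _ = (120 * q.den) ^ (y ^ 2) := by
          rw [← mul_pow]
          congr 1
          ring
  exact_mod_cast h2

end Pool.Agent.Helper51.BM
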